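import Mathlib
import Pool.Agent.X286.Win.Gen
import Pool.Agent.Results.MP_f5a5f7_nt.FewExceptions
import Pool.Agent.Results.MP_f5a5f7_nt.AlmostAllNumbers

/-!
# The weak abc inequality over a number field without exceptions, in windows

`K` is a number field of degree `d`, `x ∈ K` with `x ≠ 0, 1`. For almost all real numbers `a > 0`
(and outside a set of small Hausdorff dimension) the inequality
`h(x) + c < κ (cond(x) + cond(1/x) + cond(x - 1))` holds for ALL `x` whose relative height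
`H(x) = exp(d h(x))` is in the windows `|H(x) - a v n| ≤ (v n) ^ θ`, for all but finitely many `n`,
and for all real `c`; the same with windows for the relative conductor.
-/

set_option autoImplicit false

namespace Pool.Agent.Results.MP_f5a5f7_nt.NoExceptionsInWindows

open NumberField IsDedekindDomain MeasureTheory Filter Topology

/-- the exponent of convergence of the sequence `v` is at most `τ` -/
def ExpLe (v : ℕ → ℝ) (τ : ℝ) : Prop := ∀ t : ℝ, τ < t → Summable (fun n : ℕ => (v n) ^ (-t))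

/-- the absolute logarithmic Weil height `h(x)`, as in the problem -/
noncomputable def height {K : Type} [Field K] [NumberField K] (x : K) : ℝ :=
  (1 / (Module.finrank ℚ K : ℝ)) *
    ((∑ w : InfinitePlace K, (w.mult : ℝ) * Real.log (max 1 (w x))) +
      ∑ᶠ v : HeightOneSpectrum (𝓞 K), Real.log (max 1 (FinitePlace.mk v x)))

/-- the conductor `cond(x)`, as in the problem: the sum of `log N(v) / d` over the primes `v` at
which `x` has a positive valuation -/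
noncomputable def cond {K : Type} [Field K] [NumberField K] (x : K) : ℝ :=
  (1 / (Module.finrank ℚ K : ℝ)) *
    (∑ᶠ v : HeightOneSpectrum (𝓞 K),
      (if FinitePlace.mk v x < 1 then Real.log (Ideal.absNorm v.asIdeal : ℝ) else 0))

/-- the sum of the three conductors in Q1 -/
noncomputable def conds {K : Type} [Field K] [NumberField K] (x : K) : ℝ :=
  cond x + cond x⁻¹ + cond (x - 1)

section lemmas

variable (K : Type) [Field K] [NumberField K]

/-- the exceptions, with their relative height -/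
def Ex (κ c : ℝ) : Set K := {x | x ≠ 0 ∧ x ≠ 1 ∧ κ * conds x ≤ height x + c}

/-- the relative height -/
noncomputable def H (x : K) : ℝ := Real.exp ((Module.finrank ℚ K : ℝ) * height x)

/-- the relative conductor -/
noncomputable def R (x : K) : ℝ := Real.exp ((Module.finrank ℚ K : ℝ) * conds x)

theorem dpos : (0 : ℝ) < Module.finrank ℚ K := by
  exact_mod_cast (Module.finrank_pos (R := ℚ) (M := K))

theorem sparseH {κ : ℝ} (hκ : 1 < κ) (c : ℝ) :
    Pool.Agent.X286.Win.Sparse (Ex K κ c) (H K) (min (4 / (7 * κ)) (20 / 37)) := by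
  refine Pool.Agent.X286.Win.sparse_of_rel (H := fun x => Real.exp (height x)) (dpos K)
    (fun x _ => ⟨(Real.exp_pos _).le, ?_⟩) fun ε hε => ?_
  · unfold H
    rw [← Real.exp_mul]
    congr 1
    ring
  · obtain ⟨C, hC⟩ := FewExceptions.result K κ c ε hκ hε
    refine ⟨C, fun B hB => ?_⟩
    have hset : {t | t ∈ Ex K κ c ∧ Real.exp (height t) ≤ B} = FewExceptions.exceptional K κ c B := by
      ext x
      constructor
      · rintro ⟨⟨h1, h2, h3⟩, h4⟩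
        exact ⟨h1, h2, h4, h3⟩
      · rintro ⟨h1, h2, h4, h3⟩
        exact ⟨⟨h1, h2, h3⟩, h4⟩
    rw [hset]
    exact hC B hB

theorem finiteR (Y : ℝ) : {x : K | x ≠ 0 ∧ x ≠ 1 ∧ Real.exp (conds x) ≤ Y}.Finite := by
  obtain ⟨⟨C, hC⟩, -⟩ := (AlmostAllNumbers.result K).1 1 one_pos
  obtain ⟨h1, -⟩ := hC (max Y 1) (le_max_right _ _)
  exact h1.subset fun x hx => ⟨hx.1, hx.2.1, hx.2.2.trans (le_max_left _ _)⟩

theorem sparseR {κ : ℝ} (hκ : 1 / 3 < κ) : ∃ ν : ℝ, 0 < ν ∧ ν ≤ 2 / 3 ∧ ∀ c : ℝ,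
    Pool.Agent.X286.Win.Sparse (Ex K κ c) (R K) (2 / 3 - ν) := by
  have hd := dpos K
  obtain ⟨d, hdd⟩ : ∃ d : ℝ, d = Module.finrank ℚ K := ⟨_, rfl⟩
  obtain ⟨κ', hκ'⟩ : ∃ κ' : ℝ, κ' = (κ + 1 / 3) / 2 := ⟨_, rfl⟩
  obtain ⟨⟨ν₀, C, hν₀, hC0, hC⟩, -⟩ := (AlmostAllNumbers.result K).2.1 κ' 0 (by rw [hκ']; linarith)
  rw [← hdd] at hd hC
  obtain ⟨ν, hν⟩ : ∃ ν, ν = min (ν₀ / d) (2 / 3) := ⟨_, rfl⟩
  have hν1 : ν ≤ ν₀ / d := by rw [hν]; exact min_le_left _ _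
  have hν2 : ν ≤ 2 / 3 := by rw [hν]; exact min_le_right _ _
  have hν3 : d * ν ≤ ν₀ := by
    calc d * ν ≤ d * (ν₀ / d) := mul_le_mul_of_nonneg_left hν1 hd.le
      _ = ν₀ := by field_simp
  refine ⟨ν, by rw [hν]; exact lt_min (by positivity) (by norm_num), hν2, fun c => ?_⟩
  refine Pool.Agent.X286.Win.sparse_of_sub (by linarith) (S' := Ex K κ' 0)
    (F := {x : K | x ≠ 0 ∧ x ≠ 1 ∧ Real.exp (conds x) ≤ Real.exp (c / (κ - κ'))}) ?_
    (finiteR K _) ?_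
  · refine Pool.Agent.X286.Win.sparse_of_rel (H := fun x => Real.exp (conds x)) (dpos K)
      (fun x _ => ⟨(Real.exp_pos _).le, ?_⟩) fun ε hε => ?_
    · unfold R
      rw [← Real.exp_mul]
      congr 1
      ring
    · refine ⟨C, fun B hB => ?_⟩
      have hset : {t | t ∈ Ex K κ' 0 ∧ Real.exp (conds t) ≤ B} =
          AlmostAllNumbers.Exceptions K κ' 0 B := by
        ext x
        constructor
        · rintro ⟨⟨h1, h2, h3⟩, h4⟩
          exact ⟨h1, h2, h4, h3⟩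
        · rintro ⟨h1, h2, h4, h3⟩
          exact ⟨⟨h1, h2, h3⟩, h4⟩
      refine ⟨(finiteR K B).subset fun x hx => ⟨hx.1.1, hx.1.2.1, hx.2⟩, ?_⟩
      rw [hset]
      refine (hC B hB).trans (mul_le_mul_of_nonneg_left ?_ hC0.le)
      apply Real.rpow_le_rpow_of_exponent_le hB
      rw [← hdd]
      nlinarith
  · rintro x ⟨h1, h2, h3⟩
    by_cases h : κ' * conds x ≤ height x + 0
    · exact Or.inl ⟨h1, h2, h⟩
    · push Not at h
      refine Or.inr ⟨h1, h2, ?_⟩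
      rw [Real.exp_le_exp]
      have h4 : 0 < κ - κ' := by rw [hκ']; linarith
      rw [le_div_iff₀ h4]
      nlinarith

/-- from the windows lemma to the inequality -/
theorem use {κ : ℝ} {h : K → ℝ} {v : ℕ → ℝ} {θ a : ℝ}
    (hw : ∀ i : ℕ, ∃ n₀ : ℕ, ∀ n : ℕ, n₀ ≤ n → ∀ t ∈ Ex K κ (i : ℝ), (v n) ^ θ < |h t - a * v n|)
    (c : ℝ) : ∃ n₀ : ℕ, ∀ n : ℕ, n₀ ≤ n → ∀ x : K, x ≠ 0 → x ≠ 1 →
      |h x - a * v n| ≤ (v n) ^ θ → height x + c < κ * conds x := by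
  obtain ⟨k, hk⟩ := exists_nat_ge c
  obtain ⟨n₀, hn⟩ := hw k
  refine ⟨n₀, fun n hn1 x h0 h1 hx => ?_⟩
  by_contra hcon
  push Not at hcon
  exact absurd (hn n hn1 x ⟨h0, h1, by linarith⟩) (not_lt.2 hx)

end lemmas

/-- Let `K` be a number field of degree `d`, let `v n ≥ 1` have exponent of convergence at most
`τ ≥ 0`, and let `θ < 1`.
(1) For `κ > 1` there is a set `E` of dimension at most `(min(4/(7κ), 20/37) + τ) / (1 - θ)` such
that for all `a > 0` outside `E` and all real `c`, for all but finitely many `n`, all `x ∈ K`,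
`x ≠ 0, 1`, with `|exp(d h(x)) - a v n| ≤ (v n) ^ θ` have
`h(x) + c < κ (cond(x) + cond(1/x) + cond(x-1))`.
(2) There is a set `E` of dimension at most `τ / (1 - θ)` such that for all `a > 0` outside `E` this
holds for some `κ > 1`.
(3) For `κ > 1/3` there is `ν > 0` such that for all `v`, `τ`, `θ` as above there is a set `E` of
dimension at most `(2/3 - ν + τ) / (1 - θ)` such that for all `a > 0` outside `E` and all real `c`,
for all but finitely many `n`, all `x ≠ 0, 1`, of whatever height, with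
`|exp(d (cond(x) + cond(1/x) + cond(x-1))) - a v n| ≤ (v n) ^ θ` satisfy the inequality.
(4), (5) The powers of `n + 1` and the geometric progressions are examples of `v`. -/
theorem result (K : Type) [Field K] [NumberField K] :
    (∀ (v : ℕ → ℝ) (τ θ κ : ℝ), (∀ n, 1 ≤ v n) → 0 ≤ τ → ExpLe v τ → θ < 1 → 1 < κ →
      ∃ E : Set ℝ, dimH E ≤ ENNReal.ofReal ((min (4 / (7 * κ)) (20 / 37) + τ) / (1 - θ)) ∧
        ∀ a : ℝ, 0 < a → a ∉ E → ∀ c : ℝ, ∃ n₀ : ℕ, ∀ n : ℕ, n₀ ≤ n → ∀ x : K, x ≠ 0 → x ≠ 1 →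
          |Real.exp ((Module.finrank ℚ K : ℝ) * height x) - a * v n| ≤ (v n) ^ θ →
            height x + c < κ * (cond x + cond x⁻¹ + cond (x - 1))) ∧
    (∀ (v : ℕ → ℝ) (τ θ : ℝ), (∀ n, 1 ≤ v n) → 0 ≤ τ → ExpLe v τ → θ < 1 →
      ∃ E : Set ℝ, dimH E ≤ ENNReal.ofReal (τ / (1 - θ)) ∧
        ∀ a : ℝ, 0 < a → a ∉ E → ∃ κ : ℝ, 1 < κ ∧ ∀ c : ℝ, ∃ n₀ : ℕ, ∀ n : ℕ, n₀ ≤ n →
          ∀ x : K, x ≠ 0 → x ≠ 1 →
          |Real.exp ((Module.finrank ℚ K : ℝ) * height x) - a * v n| ≤ (v n) ^ θ →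
            height x + c < κ * (cond x + cond x⁻¹ + cond (x - 1))) ∧
    (∀ κ : ℝ, 1 / 3 < κ → ∃ ν : ℝ, 0 < ν ∧ ν ≤ 2 / 3 ∧
      ∀ (v : ℕ → ℝ) (τ θ : ℝ), (∀ n, 1 ≤ v n) → 0 ≤ τ → ExpLe v τ → θ < 1 →
      ∃ E : Set ℝ, dimH E ≤ ENNReal.ofReal ((2 / 3 - ν + τ) / (1 - θ)) ∧
        ∀ a : ℝ, 0 < a → a ∉ E → ∀ c : ℝ, ∃ n₀ : ℕ, ∀ n : ℕ, n₀ ≤ n → ∀ x : K, x ≠ 0 → x ≠ 1 →
          |Real.exp ((Module.finrank ℚ K : ℝ) * (cond x + cond x⁻¹ + cond (x - 1))) - a * v n| ≤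
            (v n) ^ θ → height x + c < κ * (cond x + cond x⁻¹ + cond (x - 1))) ∧
    (∀ b : ℝ, 0 < b → ExpLe (fun n : ℕ => ((n : ℝ) + 1) ^ b) (1 / b)) ∧
    (∀ b : ℝ, 1 < b → ExpLe (fun n : ℕ => b ^ n) 0) := by
  refine ⟨?_, ?_, ?_, ?_, ?_⟩
  · intro v τ θ κ hv hτ hE hθ hκ
    have hs : (0 : ℝ) ≤ min (4 / (7 * κ)) (20 / 37) :=
      le_min (div_nonneg (by norm_num) (by linarith)) (by norm_num)
    obtain ⟨E, h1, h2⟩ := Pool.Agent.X286.Win.family (fun i : ℕ => Ex K κ (i : ℝ))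
      (fun _ => H K) hs (fun i => sparseH K hκ i) hv hτ hE hθ
    exact ⟨E, h1, fun a ha haE => use K (h2 a ha haE)⟩
  · intro v τ θ hv hτ hE hθ
    have hs0 : ∀ k : ℕ, (0 : ℝ) ≤ min (4 / (7 * ((k : ℝ) + 2))) (20 / 37) :=
      fun k => le_min (by positivity) (by norm_num)
    have hs1 : Tendsto (fun k : ℕ => (4 / (7 * ((k : ℝ) + 2)) : ℝ)) atTop (𝓝 0) := by
      apply Tendsto.const_div_atTop
      apply Tendsto.const_mul_atTop (by norm_num)
      exact tendsto_atTop_add_const_right _ _ tendsto_natCast_atTop_atTop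
    have hs : Tendsto (fun k : ℕ => min (4 / (7 * ((k : ℝ) + 2))) (20 / 37 : ℝ)) atTop (𝓝 0) :=
      squeeze_zero hs0 (fun k => min_le_left _ _) hs1
    obtain ⟨E, h1, h2⟩ := Pool.Agent.X286.Win.some_member
      (fun (k : ℕ) (i : ℕ) => Ex K ((k : ℝ) + 2) (i : ℝ)) (fun _ => H K) hs0 hs
      (fun k i => sparseH K (by linarith [(Nat.cast_nonneg k : (0 : ℝ) ≤ k)]) i) hv hτ hE hθ
    refine ⟨E, h1, fun a ha haE => ?_⟩
    obtain ⟨k, hk⟩ := h2 a ha haE
    exact ⟨(k : ℝ) + 2, by linarith [(Nat.cast_nonneg k : (0 : ℝ) ≤ k)], use K hk⟩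
  · intro κ hκ
    obtain ⟨ν, hν0, hν1, hν⟩ := sparseR K hκ
    refine ⟨ν, hν0, hν1, fun v τ θ hv hτ hE hθ => ?_⟩
    obtain ⟨E, h1, h2⟩ := Pool.Agent.X286.Win.family (fun i : ℕ => Ex K κ (i : ℝ))
      (fun _ => R K) (by linarith) (fun i => hν i) hv hτ hE hθ
    exact ⟨E, h1, fun a ha haE => use K (h2 a ha haE)⟩
  · intro b hb
    exact Pool.Agent.Y854.GM.expLe_pow b hb
  · intro b hb
    exact Pool.Agent.Y854.GM.expLe_geom b hb

end Pool.Agent.Results.MP_f5a5f7_nt.NoExceptionsInWindows
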