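import Pool.Agent.X100.NK.Cond

/-!
# The weak abc inequality for the values of rational functions over a number field at rational
# arguments, of all heights

`K` is a number field of degree `n` and `φ = A / C` a nonconstant rational function over `K`. The
values `x = φ(t)` at the rational numbers `t`, of whatever height, are counted by
`cond(x) + cond(1/x) + cond(x - 1)`.
-/

set_option autoImplicit false

namespace Pool.Agent.Results.MP_f5a5f7_nt.RationalFunctionsAtRationals

open NumberField IsDedekindDomain Finset Polynomial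

variable {K : Type} [Field K] [NumberField K]

/-- the absolute logarithmic height of `x` -/
noncomputable def height (x : K) : ℝ :=
  (∑ w : InfinitePlace K, (w.mult : ℝ) * Real.log (max 1 (w x)) +
    ∑ᶠ v : HeightOneSpectrum (𝓞 K), Real.log (max 1 (FinitePlace.mk v x))) /
      (Module.finrank ℚ K : ℝ)

/-- the conductor of `x` -/
noncomputable def cond (x : K) : ℝ :=
  (∑ᶠ (v : HeightOneSpectrum (𝓞 K)) (_ : FinitePlace.mk v x < 1),
    Real.log (Ideal.absNorm v.asIdeal : ℝ)) / (Module.finrank ℚ K : ℝ)

/-- the value at `t` of the polynomial `A` with coefficients in the ring of integers -/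
noncomputable def value (A : (𝓞 K)[X]) (t : ℚ) : K := (A.map (algebraMap (𝓞 K) K)).eval (t : K)

/-- `A / C` is a rational function over `K` of degree `D ≥ 1` in lowest terms. The `f_i` are
polynomials with integral coefficients which are irreducible over `ℚ`, of degree `d_i`, such that
some zero of `f_i` is a zero of `A`, of `C - A` or of `C` (the numbers where `A / C` takes one of the
values `0`, `1`, `∞`); or `f_i = 1`, `d_i = 1` stands for the point `∞` of the line, if `A / C` takes
one of these values at `∞`. The `f_i` are essentially different. -/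
structure IsFunction (A C : (𝓞 K)[X]) (D : ℕ) {m : ℕ} (f : Fin m → ℤ[X]) (d : Fin m → ℕ) : Prop where
  pos : 1 ≤ D
  degree : max A.natDegree C.natDegree = D
  lowest : IsCoprime (A.map (algebraMap (𝓞 K) K)) (C.map (algebraMap (𝓞 K) K))
  factors : ∀ i,
    (Irreducible ((f i).map (Int.castRingHom ℚ)) ∧ d i = (f i).natDegree ∧
      ¬ IsCoprime ((f i).map (Int.castRingHom K))
        ((A * (C - A) * C).map (algebraMap (𝓞 K) K))) ∨
    (f i = 1 ∧ d i = 1 ∧ (A * (C - A) * C).natDegree < 3 * D)
  distinct : Squarefree ((∏ i, f i).map (Int.castRingHom ℚ))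
  once : ∑ i, d i ≤ (∏ i, f i).natDegree + 1

/-- the rational numbers `t`, of whatever height, such that `x = A(t) / C(t)` is different from `0`,
`1`, `∞` and `cond(x) + cond(1/x) + cond(x - 1) ≤ log R` -/
def Arguments (A C : (𝓞 K)[X]) (R : ℝ) : Set ℚ :=
  {t | value A t ≠ 0 ∧ value C t ≠ 0 ∧ value A t ≠ value C t ∧
    cond (value A t / value C t) + cond (value A t / value C t)⁻¹ +
      cond (value A t / value C t - 1) ≤ Real.log R}

/-- those for which `x` violates the inequality `h(x) ≤ κ (cond(x) + cond(1/x) + cond(x - 1) + 1)` -/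
def Violating (A C : (𝓞 K)[X]) (κ R : ℝ) : Set ℚ :=
  {t | t ∈ Arguments A C R ∧
    κ * (cond (value A t / value C t) + cond (value A t / value C t)⁻¹ +
      cond (value A t / value C t - 1) + 1) < height (value A t / value C t)}

/-- the number of the factors, those of degree at least three counted twice -/
def weight {m : ℕ} (d : Fin m → ℕ) : ℕ := ∑ i, if d i ≤ 2 then 1 else 2

/-- for `R ≥ 1` at most `C₀ R ^ θ (1 + log R) ^ e` rational arguments lead to values with the sum of
the conductors at most `log R`; in particular, at most so many lead to violations -/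
def Bound (A C : (𝓞 K)[X]) (θ : ℝ) : Prop :=
  ∃ (C₀ : ℝ) (e : ℕ), 0 < C₀ ∧ ∀ R : ℝ, 1 ≤ R →
    (Arguments A C R).Finite ∧ ((Arguments A C R).ncard : ℝ) ≤ C₀ * R ^ θ * (1 + Real.log R) ^ e ∧
    ∀ κ : ℝ, (Violating A C κ R).Finite ∧
      ((Violating A C κ R).ncard : ℝ) ≤ C₀ * R ^ θ * (1 + Real.log R) ^ e

theorem general (A C : (𝓞 K)[X]) (D : ℕ) {m : ℕ} (f : Fin m → ℤ[X]) (d : Fin m → ℕ)
    (h : IsFunction A C D f d) {θ : ℝ} (hcnt : X100.Nt.Cnt f d θ) :
    Bound A C ((Module.finrank ℚ K : ℝ) * θ) := by
  classical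
  have hD := h.pos
  have hmax := h.degree
  have hAd : A.natDegree ≤ D := hmax ▸ le_max_left _ _
  have hCd : C.natDegree ≤ D := hmax ▸ le_max_right _ _
  have hinj : Function.Injective (algebraMap (𝓞 K) K) := RingOfIntegers.coe_injective
  have hA0 : A ≠ 0 := by
    rintro rfl
    have h1 := h.lowest
    rw [Polynomial.map_zero, isCoprime_zero_left] at h1
    have h2 := natDegree_eq_zero_of_isUnit h1
    rw [natDegree_map_eq_of_injective hinj] at h2
    rw [natDegree_zero, h2] at hmax
    omega
  have hC0 : C ≠ 0 := by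
    rintro rfl
    have h1 := h.lowest
    rw [Polynomial.map_zero, isCoprime_zero_right] at h1
    have h2 := natDegree_eq_zero_of_isUnit h1
    rw [natDegree_map_eq_of_injective hinj] at h2
    rw [natDegree_zero, h2] at hmax
    omega
  have hB0 : C - A ≠ 0 := by
    intro h0
    have h1 := h.lowest
    rw [sub_eq_zero.1 h0, isCoprime_self] at h1
    have h2 := natDegree_eq_zero_of_isUnit h1
    rw [natDegree_map_eq_of_injective hinj] at h2
    rw [sub_eq_zero.1 h0, h2] at hmax
    omega
  set P : Fin 3 → (𝓞 K)[X] := ![A, C - A, C] with hP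
  have hPd : ∀ j, (P j).natDegree ≤ D := by
    intro j
    fin_cases j
    · exact hAd
    · exact (natDegree_sub_le C A).trans (max_le hCd hAd)
    · exact hCd
  have hlead : ∃ j, (P j).natDegree = D := by
    rcases max_choice A.natDegree C.natDegree with h1 | h1
    · exact ⟨0, by rw [← hmax, h1]; rfl⟩
    · exact ⟨2, by rw [← hmax, h1]; rfl⟩
  have hspan : Ideal.span (Set.range fun j => (P j).map (algebraMap (𝓞 K) K)) = ⊤ := by
    obtain ⟨a, b, hab⟩ := h.lowest
    rw [Ideal.eq_top_iff_one, ← hab]
    refine Ideal.add_mem _ (Ideal.mul_mem_left _ _ (Ideal.subset_span ⟨0, rfl⟩))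
      (Ideal.mul_mem_left _ _ (Ideal.subset_span ⟨2, rfl⟩))
  have hrel : X100.NK.Rel P D f d := by
    intro i
    rcases h.factors i with ⟨h1, h2, h3⟩ | ⟨h1, h2, h3⟩
    · refine Or.inl ⟨h1, h2, ?_⟩
      by_contra hcon
      push Not at hcon
      apply h3
      rw [Polynomial.map_mul, Polynomial.map_mul]
      exact ((hcon 0).mul_right (hcon 1)).mul_right (hcon 2)
    · refine Or.inr ⟨h1, h2, ?_⟩
      by_contra hcon
      push Not at hcon
      have e0 : A.natDegree = D := le_antisymm hAd (hcon 0)
      have e1 : (C - A).natDegree = D := le_antisymm (hPd 1) (hcon 1)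
      have e2 : C.natDegree = D := le_antisymm hCd (hcon 2)
      rw [natDegree_mul (mul_ne_zero hA0 hB0) hC0, natDegree_mul hA0 hB0, e0, e1, e2] at h3
      omega
  obtain ⟨C₀, e, hC₀, H⟩ := X100.NK.count P D hD hPd hlead hspan f d hrel hcnt
  refine ⟨C₀, e, hC₀, fun R hR => ?_⟩
  have hall : ∀ S ⊆ Arguments A C R, S.Finite ∧
      (S.ncard : ℝ) ≤ C₀ * R ^ ((Module.finrank ℚ K : ℝ) * θ) * (1 + Real.log R) ^ e := by
    intro S hS
    refine H R hR S fun t ht => ?_
    obtain ⟨k1, k2, k3, k4⟩ := hS ht
    have hac : value C t - value A t ≠ 0 := sub_ne_zero.2 (Ne.symm k3)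
    have hz : (fun j => ((P j).map (algebraMap (𝓞 K) K)).eval (t : K)) =
        ![value A t, value C t - value A t, value C t] := by
      funext j
      fin_cases j
      · rfl
      · show ((C - A).map (algebraMap (𝓞 K) K)).eval (t : K) = value C t - value A t
        rw [Polynomial.map_sub, eval_sub]
        rfl
      · rfl
    refine ⟨fun j => ?_, ?_⟩
    · have hj : ((P j).map (algebraMap (𝓞 K) K)).eval (t : K) =
          (![value A t, value C t - value A t, value C t] : Fin 3 → K) j := congrFun hz j
      rw [hj]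
      fin_cases j
      · exact k1
      · exact hac
      · exact k2
    · rw [hz, ← X100.NK.cnd_sum (value A t) (value C t) k1 k2 hac]
      exact k4
  exact ⟨(hall _ (le_refl _)).1, (hall _ (le_refl _)).2, fun κ => hall _ fun t ht => ht.1⟩

/-- **The weak abc inequality for the values of a rational function at rational arguments.**
Let `K` be a number field of degree `n` and let `A`, `C`, `D`, `f`, `d` be as in `IsFunction`.
(1) If at least three of the `f_i` are linear, there are `C₀` and `e` such that for all `R ≥ 1` at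
most `C₀ R ^ (2 n / weight d) (1 + log R) ^ e` rational numbers `t`, of whatever height, lead to
`x = A(t) / C(t)` with `cond(x) + cond(1/x) + cond(x - 1) ≤ log R`; in particular, for every `κ` at
most so many lead to `h(x) > κ (cond(x) + cond(1/x) + cond(x - 1) + 1)`.
(2) Let `B_1, …, B_g` be sets of the `f_i` of total degree at least three each, such that every
`f_i` is in at most `c` of them. Then the same holds with the exponent `n c / g`. -/
theorem result (K : Type) [Field K] [NumberField K] (A C : (𝓞 K)[X]) (D m : ℕ)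
    (f : Fin m → ℤ[X]) (d : Fin m → ℕ) (h : IsFunction A C D f d) :
    (3 ≤ (univ.filter (fun i => d i = 1)).card →
      Bound A C ((Module.finrank ℚ K : ℝ) * (2 / (weight d : ℝ)))) ∧
    ∀ (g c : ℕ) (B : Fin g → Finset (Fin m)), 1 ≤ g → (∀ b, 3 ≤ ∑ i ∈ B b, d i) →
      (∀ i, (univ.filter (fun b => i ∈ B b)).card ≤ c) →
      Bound A C ((Module.finrank ℚ K : ℝ) * ((c : ℝ) / g)) := by
  have hd1 : ∀ i, (f i).natDegree ≤ d i ∧ 1 ≤ d i := by
    intro i
    rcases h.factors i with ⟨h1, h2, -⟩ | ⟨h1, h2, -⟩
    · refine ⟨h2.ge, ?_⟩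
      rw [h2, ← natDegree_map_eq_of_injective (f := Int.castRingHom ℚ) Int.cast_injective]
      exact h1.natDegree_pos
    · rw [h1, h2, natDegree_one]
      omega
  refine ⟨fun h3 => ?_, fun g c B hg hB hc => ?_⟩
  · exact general A C D f d h (X100.Nt.cnt_mixed f d (fun i => (hd1 i).1) (fun i => (hd1 i).2)
      h.distinct h.once h3)
  · have hne : Nonempty (Fin g) := Fin.pos_iff_nonempty.1 hg
    have h1 := X100.Nt.cnt_blocks (β := Fin g) f d (fun i => (hd1 i).1) h.distinct h.once B hB c hc
    rw [Fintype.card_fin] at h1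
    exact general A C D f d h h1

end Pool.Agent.Results.MP_f5a5f7_nt.RationalFunctionsAtRationals
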