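import Pool.Agent.Results.MP_f5a5f7_nt.NoExceptionsInWindows
import Pool.Agent.X16.NW.F

/-!
# The weak abc inequality over a number field for all numbers with height near real powers

`K` is a number field of degree `d`, `x ∈ K` with `x ≠ 0, 1`. For almost all real numbers `t > 1` the
inequality `h(x) + c < κ (cond(x) + cond(1/x) + cond(x - 1))` holds for ALL `x` whose relative height
`H(x) = exp(d h(x))` satisfies `|H(x) - t ^ κ_n| ≤ t ^ (θ κ_n)`, for all but finitely many `n`, whenever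
`κ_n / log n → ∞`; the same is true for `n ^ t` and, in general, for locally expanding families of
functions of `t`, and with the relative conductor in place of the relative height. The existing result
`NoExceptionsInWindows` is about the linear families `a v_n`.
-/

set_option autoImplicit false

namespace Pool.Agent.Results.MP_f5a5f7_nt.RealPowers

open NumberField Filter Topology MeasureTheory
open Pool.Agent.Results.MP_f5a5f7_nt.NoExceptionsInWindows (height cond conds Ex H R sparseH sparseR)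
open Pool.Agent.X16.NW

/-- All `x ∈ K`, `x ≠ 0, 1`, with `|exp (d h(x)) - F| ≤ F ^ θ` (`d` is the degree of `K`) satisfy
`h(x) + j < κ (cond(x) + cond(1/x) + cond(x - 1))`. -/
def HeightNear (K : Type) [Field K] [NumberField K] (κ θ : ℝ) (j : ℕ) (F : ℝ) : Prop :=
  ∀ x : K, x ≠ 0 → x ≠ 1 → |Real.exp ((Module.finrank ℚ K : ℝ) * height x) - F| ≤ F ^ θ →
    height x + j < κ * conds x

/-- All `x ∈ K`, `x ≠ 0, 1`, of whatever height, with `|exp (d C) - F| ≤ F ^ θ`, where `d` is the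
degree of `K` and `C = cond(x) + cond(1/x) + cond(x - 1)`, satisfy `h(x) + j < κ C`. -/
def ConductorNear (K : Type) [Field K] [NumberField K] (κ θ : ℝ) (j : ℕ) (F : ℝ) : Prop :=
  ∀ x : K, x ≠ 0 → x ≠ 1 → |Real.exp ((Module.finrank ℚ K : ℝ) * conds x) - F| ≤ F ^ θ →
    height x + j < κ * conds x

theorem heightFamilies (K : Type) [Field K] [NumberField K] {κ θ : ℝ} (hκ : 1 < κ) (hθ0 : 0 ≤ θ)
    (hθ1 : θ < 1) : AlongFamilies (min (4 / (7 * κ)) (20 / 37)) θ (HeightNear K κ θ) := by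
  refine along_families (fun j : ℕ => Ex K κ (j : ℝ)) (H K) _ θ
    (le_min (div_nonneg (by norm_num) (by linarith)) (by norm_num)) hθ0 hθ1
    (fun j => sparseH K hκ (j : ℝ)) _ fun j F hF x h0 h1 hx => ?_
  by_contra hcon
  push Not at hcon
  exact absurd (hF x ⟨h0, h1, hcon⟩) (not_lt.2 hx)

theorem conductorFamilies (K : Type) [Field K] [NumberField K] {κ : ℝ} (hκ : 1 / 3 < κ) :
    ∃ ν : ℝ, 0 < ν ∧ ν ≤ 2 / 3 ∧ ∀ θ : ℝ, 0 ≤ θ → θ < 1 →
      AlongFamilies (2 / 3 - ν) θ (ConductorNear K κ θ) := by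
  obtain ⟨ν, h1, h2, h3⟩ := sparseR K hκ
  refine ⟨ν, h1, h2, fun θ hθ0 hθ1 => ?_⟩
  refine along_families (fun j : ℕ => Ex K κ (j : ℝ)) (R K) _ θ (by linarith) hθ0 hθ1
    (fun j => h3 (j : ℝ)) _ fun j F hF x h0 h1 hx => ?_
  by_contra hcon
  push Not at hcon
  exact absurd (hF x ⟨h0, h1, hcon⟩) (not_lt.2 hx)

theorem someFamily (K : Type) [Field K] [NumberField K] {θ : ℝ} (hθ0 : 0 ≤ θ) (hθ1 : θ < 1)
    (f : ℕ → ℝ → ℝ) (I : Set ℝ) (τ : ℝ) (hτ : 0 ≤ τ) (hf : LocExpanding f I τ) :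
    ∃ E : Set ℝ, dimH E ≤ ENNReal.ofReal (τ / (1 - θ)) ∧ ∀ t ∈ I, t ∉ E →
      ∃ κ : ℝ, 1 < κ ∧ ∀ j : ℕ, ∃ n₀ : ℕ, ∀ n : ℕ, n₀ ≤ n → HeightNear K κ θ j (f n t) := by
  have hall : ∀ m : ℕ, ∃ E : Set ℝ,
      dimH E ≤ ENNReal.ofReal ((4 / 7 * (1 / ((m : ℝ) + 1)) + τ) / (1 - θ)) ∧ ∀ t ∈ I, t ∉ E →
      ∀ j : ℕ, ∃ n₀ : ℕ, ∀ n : ℕ, n₀ ≤ n → HeightNear K ((m : ℝ) + 2) θ j (f n t) := by
    intro m
    have hm0 : (0 : ℝ) ≤ m := Nat.cast_nonneg m
    have hm : (1 : ℝ) < (m : ℝ) + 2 := by linarith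
    obtain ⟨E, hE, h⟩ := heightFamilies K hm hθ0 hθ1 f I τ hτ hf
    refine ⟨E, hE.trans ?_, h⟩
    apply ENNReal.ofReal_le_ofReal
    apply div_le_div_of_nonneg_right _ (by linarith)
    have h2 : min (4 / (7 * ((m : ℝ) + 2))) (20 / 37) ≤ 4 / 7 * (1 / ((m : ℝ) + 1)) := by
      refine (min_le_left _ _).trans ?_
      rw [div_mul_div_comm, mul_one]
      apply div_le_div_of_nonneg_left (by norm_num) (by positivity) (by linarith)
    linarith
  choose G hG1 hG2 using hall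
  refine ⟨⋂ m, G m, ?_, fun t ht htE => ?_⟩
  · have hlim : Tendsto (fun m : ℕ => ENNReal.ofReal ((4 / 7 * (1 / ((m : ℝ) + 1)) + τ) / (1 - θ)))
        atTop (𝓝 (ENNReal.ofReal ((4 / 7 * 0 + τ) / (1 - θ)))) :=
      ENNReal.tendsto_ofReal
        (((tendsto_one_div_add_atTop_nhds_zero_nat.const_mul _).add_const τ).div_const (1 - θ))
    rw [mul_zero, zero_add] at hlim
    exact ge_of_tendsto' hlim fun m => (dimH_mono (Set.iInter_subset _ m)).trans (hG1 m)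
  · rw [Set.mem_iInter] at htE
    push Not at htE
    obtain ⟨m, hm⟩ := htE
    exact ⟨(m : ℝ) + 2, by linarith [(Nat.cast_nonneg m : (0 : ℝ) ≤ m)], hG2 m t ht hm⟩

/-- **Theorem.** Let `K` be a number field of degree `d`, `0 ≤ θ < 1`; `x ∈ K` is always different from
`0` and `1`, and `C(x) = cond(x) + cond(1/x) + cond(x - 1)`.
(1) Let `κ > 1` and `s = min(4/(7κ), 20/37)`. Along locally expanding families `f_n(t)` with exponent `τ`
and all `t` outside a set of dimension at most `(s + τ) / (1 - θ)`, for each `c`, for all large `n`, ALL `x`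
with `|exp(d h(x)) - f_n(t)| ≤ f_n(t) ^ θ` satisfy `h(x) + c < κ C(x)`; in particular this is so for
`t ^ κ_n` with `κ_n / log n → ∞` (dimension at most `s / (1 - θ)`) and for `n ^ t`, `t ≥ a` (dimension at most
`(s + 1/a) / (1 - θ)`), and, if `s + θ < 1`, for almost all `t > 1` and almost all `t > 1 / (1 - s - θ)`.
(2) For all `t` outside a set of dimension at most `τ / (1 - θ)` this is true with some `κ > 1`; for `t ^ κ_n`
the exceptional set has dimension `0`.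
(3) For `κ > 1/3` there is `ν > 0` such that, for all `θ`, (1) is true with `s = 2/3 - ν` and with
`exp(d C(x))` in place of `exp(d h(x))`, that is for ALL `x`, of whatever height, whose relative conductor is
near `f_n(t)`. -/
theorem result (K : Type) [Field K] [NumberField K] :
    (∀ κ θ : ℝ, 1 < κ → 0 ≤ θ → θ < 1 →
      AlongFamilies (min (4 / (7 * κ)) (20 / 37)) θ (HeightNear K κ θ) ∧
      AlongPowers (min (4 / (7 * κ)) (20 / 37)) θ (HeightNear K κ θ) ∧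
      (min (4 / (7 * κ)) (20 / 37) + θ < 1 →
        AlmostAllPowers (min (4 / (7 * κ)) (20 / 37)) θ (HeightNear K κ θ))) ∧
    (∀ θ : ℝ, 0 ≤ θ → θ < 1 → ∀ (f : ℕ → ℝ → ℝ) (I : Set ℝ) (τ : ℝ), 0 ≤ τ → LocExpanding f I τ →
      ∃ E : Set ℝ, dimH E ≤ ENNReal.ofReal (τ / (1 - θ)) ∧ ∀ t ∈ I, t ∉ E →
        ∃ κ : ℝ, 1 < κ ∧ ∀ j : ℕ, ∃ n₀ : ℕ, ∀ n : ℕ, n₀ ≤ n → HeightNear K κ θ j (f n t)) ∧
    (∀ θ : ℝ, 0 ≤ θ → θ < 1 → ∀ q : ℕ → ℝ,
      Tendsto (fun n : ℕ => q n / Real.log n) atTop atTop →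
      ∃ E : Set ℝ, dimH E = 0 ∧ ∀ t : ℝ, 1 < t → t ∉ E →
        ∃ κ : ℝ, 1 < κ ∧ ∀ j : ℕ, ∃ n₀ : ℕ, ∀ n : ℕ, n₀ ≤ n → HeightNear K κ θ j (t ^ q n)) ∧
    (∀ κ : ℝ, 1 / 3 < κ → ∃ ν : ℝ, 0 < ν ∧ ν ≤ 2 / 3 ∧ ∀ θ : ℝ, 0 ≤ θ → θ < 1 →
      AlongFamilies (2 / 3 - ν) θ (ConductorNear K κ θ) ∧
      AlongPowers (2 / 3 - ν) θ (ConductorNear K κ θ) ∧
      (2 / 3 - ν + θ < 1 → AlmostAllPowers (2 / 3 - ν) θ (ConductorNear K κ θ))) ∧
    (∀ q : ℕ → ℝ, Tendsto (fun k : ℕ => q k / Real.log k) atTop atTop →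
      LocExpanding (fun k t => t ^ q k) (Set.Ioi 1) 0) ∧
    ∀ a : ℝ, 0 < a → LocExpanding (fun k t => (k : ℝ) ^ t) (Set.Ici a) (1 / a) := by
  refine ⟨fun κ θ hκ hθ0 hθ1 => ?_, fun θ hθ0 hθ1 f I τ hτ hf => someFamily K hθ0 hθ1 f I τ hτ hf,
    fun θ hθ0 hθ1 q hq => ?_, fun κ hκ => ?_, loc_rpow, loc_npow⟩
  · have h := heightFamilies K hκ hθ0 hθ1
    exact ⟨h, along_powers_of h, fun hs => ae_powers_of
      (le_min (div_nonneg (by norm_num) (by linarith)) (by norm_num)) hs (along_powers_of h)⟩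
  · obtain ⟨E, hE, h⟩ := someFamily K hθ0 hθ1 _ _ 0 le_rfl (loc_rpow q hq)
    rw [zero_div, ENNReal.ofReal_zero] at hE
    exact ⟨E, le_antisymm hE zero_le, fun t ht htE => h t ht htE⟩
  · obtain ⟨ν, h1, h2, h3⟩ := conductorFamilies K hκ
    exact ⟨ν, h1, h2, fun θ hθ0 hθ1 => ⟨h3 θ hθ0 hθ1, along_powers_of (h3 θ hθ0 hθ1), fun hs =>
      ae_powers_of (by linarith) hs (along_powers_of (h3 θ hθ0 hθ1))⟩⟩

end Pool.Agent.Results.MP_f5a5f7_nt.RealPowers
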