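import Pool.Agent.Results.MP_f5a5f7_nt.FewExceptions
import Pool.Agent.X123.MT.Null

/-!
# The weak abc inequality over a number field near the points outside a small set

Let `K` be a number field of degree `d` and `s` any map from `K` to a metric space, for example an embedding into a
completion of `K`. For `κ > 1` and `τ > 0` all points `z` outside a set of Hausdorff dimension at most
`d min (4 / (7 κ), 20 / 37) / τ` have the property that for every `c` only finitely many `x ∈ K` with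
`|z - s(x)| ≤ H(x) ^ (-τ)` violate `h(x) < κ (cond(x) + cond(1/x) + cond(x-1)) - c`. Outside a set of Hausdorff
dimension ZERO, for every `τ > 0` the inequality of Q1 holds with some `κ` for ALL `x ∈ K` with
`|z - s(x)| ≤ H(x) ^ (-τ)`.
-/

set_option autoImplicit false

open scoped ENNReal

namespace Pool.Agent.Results.MP_f5a5f7_nt.WeakAbcNearTargets

open NumberField IsDedekindDomain MeasureTheory
open FewExceptions (height)
open FewExceptions renaming cond → cnd
open Pool.Agent.X123.MT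

/-- the exponent `min (4 / (7 κ), 20 / 37)` -/
noncomputable def expo (κ : ℝ) : ℝ := min (4 / (7 * κ)) (20 / 37)

/-- the `x ∈ K`, `x ≠ 0, 1`, with `κ (cond(x) + cond(1/x) + cond(x-1)) ≤ h(x) + c` and
`|z - s(x)| ≤ exp (- τ h(x))` -/
def Close {K : Type} [Field K] [NumberField K] {M : Type} [MetricSpace M] (s : K → M)
    (κ c τ : ℝ) (z : M) : Set K :=
  {x | (x ≠ 0 ∧ x ≠ 1 ∧ κ * (cnd x + cnd x⁻¹ + cnd (x - 1)) ≤ height x + c) ∧
    dist z (s x) ≤ Real.exp (-(τ * height x))}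

variable {K : Type} [Field K] [NumberField K]

/-- the exceptions -/
def Exc (K : Type) [Field K] [NumberField K] (κ c : ℝ) : Set K :=
  {x | x ≠ 0 ∧ x ≠ 1 ∧ κ * (cnd x + cnd x⁻¹ + cnd (x - 1)) ≤ height x + c}

lemma height_nonneg (x : K) : 0 ≤ height x := by
  unfold height
  apply mul_nonneg (by positivity)
  apply add_nonneg
  · exact Finset.sum_nonneg fun w _ =>
      mul_nonneg (Nat.cast_nonneg _) (Real.log_nonneg (le_max_left _ _))
  · exact finsum_nonneg fun v => Real.log_nonneg (le_max_left _ _)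

lemma cond_nonneg (x : K) : 0 ≤ cnd x := by
  unfold FewExceptions.cond
  apply mul_nonneg (by positivity)
  apply finsum_nonneg
  intro v
  split_ifs
  · exact Real.log_natCast_nonneg _
  · exact le_rfl

lemma expo_pos {κ : ℝ} (hκ : 1 < κ) : 0 < expo κ := by
  unfold expo
  exact lt_min (by positivity) (by norm_num)

lemma cnt (K : Type) [Field K] [NumberField K] (κ c : ℝ) (hκ : 1 < κ) :
    Cnt (Exc K κ c) height ((Module.finrank ℚ K : ℝ) * expo κ) := by
  intro δ hδ
  obtain ⟨C, hC⟩ := FewExceptions.result K κ c δ hκ hδ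
  refine ⟨C, fun t ht => ?_⟩
  obtain ⟨h1, h2⟩ := hC (Real.exp t) (Real.one_le_exp ht)
  have hset : {x | x ∈ Exc K κ c ∧ height x ≤ t} =
      FewExceptions.exceptional K κ c (Real.exp t) := by
    ext x
    unfold FewExceptions.exceptional Exc
    simp only [Set.mem_ofPred_eq, Real.exp_le_exp]
    tauto
  rw [hset]
  refine ⟨h1, h2.trans (le_of_eq ?_)⟩
  rw [← Real.exp_mul]
  congr 2
  unfold expo
  ring

/-- **Theorem.** Let `K` be a number field of degree `d`. For every map `s` from `K` to a metric space: (1) For `κ > 1`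
and `τ > 0` there is a set `E` of Hausdorff dimension at most `d min (4 / (7 κ), 20 / 37) / τ` such that for each `z`
outside `E` and each `c` only finitely many `x ∈ K`, `x ≠ 0, 1`, with `|z - s(x)| ≤ H(x) ^ (-τ)` have
`κ (cond(x) + cond(1/x) + cond(x-1)) ≤ h(x) + c`. (2) There is a set `E` of Hausdorff dimension zero such that for each
`z` outside `E` and each `τ > 0` there is `κ > 1` with `h(x) ≤ κ (cond(x) + cond(1/x) + cond(x-1) + 1)` for ALL
`x ∈ K`, `x ≠ 0, 1`, with `|z - s(x)| ≤ H(x) ^ (-τ)`. (3) If `s` is a map to the real or complex numbers and `τ`,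
respectively `2 τ`, is greater than `d min (4 / (7 κ), 20 / 37)`, then the property in (1) holds for almost all `z`. -/
theorem result (K : Type) [Field K] [NumberField K] :
    (∀ (M : Type) [MetricSpace M] (s : K → M),
      (∀ κ τ : ℝ, 1 < κ → 0 < τ → ∃ E : Set M,
        dimH E ≤ ENNReal.ofReal ((Module.finrank ℚ K : ℝ) * expo κ / τ) ∧
          ∀ z : M, z ∉ E → ∀ c : ℝ, (Close s κ c τ z).Finite) ∧
      ∃ E : Set M, dimH E = 0 ∧ ∀ z : M, z ∉ E → ∀ τ : ℝ, 0 < τ → ∃ κ : ℝ, 1 < κ ∧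
        ∀ x : K, x ≠ 0 → x ≠ 1 → dist z (s x) ≤ Real.exp (-(τ * height x)) →
          height x ≤ κ * (cnd x + cnd x⁻¹ + cnd (x - 1) + 1)) ∧
    (∀ (s : K → ℝ) (κ τ : ℝ), 1 < κ → (Module.finrank ℚ K : ℝ) * expo κ < τ →
      ∀ᵐ z : ℝ, ∀ c : ℝ, (Close s κ c τ z).Finite) ∧
    ∀ (s : K → ℂ) (κ τ : ℝ), 1 < κ → (Module.finrank ℚ K : ℝ) * expo κ < 2 * τ →
      ∀ᵐ z : ℂ, ∀ c : ℝ, (Close s κ c τ z).Finite := by
  have hd : (0 : ℝ) < (Module.finrank ℚ K : ℝ) := by exact_mod_cast Module.finrank_pos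
  have main1 : ∀ (M : Type) [MetricSpace M] (s : K → M) (κ τ : ℝ), 1 < κ → 0 < τ →
      ∃ E : Set M, dimH E ≤ ENNReal.ofReal ((Module.finrank ℚ K : ℝ) * expo κ / τ) ∧
        ∀ z : M, z ∉ E → ∀ c : ℝ, (Close s κ c τ z).Finite := by
    intro M _ s κ τ hκ hτ
    obtain ⟨E, hE, hE2⟩ := pos_dim (fun k : ℕ => Exc K κ (k : ℝ)) height
      (fun _ x _ => height_nonneg x) (mul_nonneg hd.le (expo_pos hκ).le) hτ
      (fun k => cnt K κ k hκ) s
    refine ⟨E, hE, fun z hz c => ?_⟩
    obtain ⟨k, hk⟩ := exists_nat_ge c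
    refine (hE2 z hz k).subset ?_
    rintro x ⟨⟨h1, h2, h3⟩, h4⟩
    exact ⟨⟨h1, h2, by linarith⟩, h4⟩
  refine ⟨fun M _ s => ⟨main1 M s, ?_⟩, fun s κ τ hκ hlt => ?_, fun s κ τ hκ hlt => ?_⟩
  · obtain ⟨f, hf⟩ : ∃ f : ℕ → ℝ, ∀ k, f k =
        (Module.finrank ℚ K : ℝ) * ((k : ℝ) + 1) ^ 2 + 1 := ⟨_, fun _ => rfl⟩
    have hf1 : ∀ k, 1 < f k := fun k => by
      rw [hf]
      have : 0 < (Module.finrank ℚ K : ℝ) * ((k : ℝ) + 1) ^ 2 := by positivity
      linarith
    obtain ⟨E, hE, hE2⟩ := levels (fun (k : ℕ) (_ : Unit) => {z : M | {x | x ∈ Exc K (f k) 0 ∧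
        dist z (s x) ≤ Real.exp (-(1 / ((k : ℝ) + 1) * height x))}.Infinite}) (fun k _ => by
      refine (dim_le (Exc K (f k) 0) height (fun x _ => height_nonneg x)
        (mul_nonneg hd.le (expo_pos (hf1 k)).le) (by positivity) (cnt K (f k) 0 (hf1 k)) s).trans
        (ENNReal.ofReal_le_ofReal ?_)
      have h1 : expo (f k) ≤ 4 / (7 * f k) := min_le_left _ _
      have h2 := hf1 k
      have h3 : (0 : ℝ) < (k : ℝ) + 1 := by positivity
      have h4 : (Module.finrank ℚ K : ℝ) * ((k : ℝ) + 1) ^ 2 ≤ f k := by rw [hf]; linarith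
      calc (Module.finrank ℚ K : ℝ) * expo (f k) / (1 / ((k : ℝ) + 1))
          ≤ (Module.finrank ℚ K : ℝ) * (4 / (7 * f k)) / (1 / ((k : ℝ) + 1)) := by gcongr
        _ = (4 / 7) * ((Module.finrank ℚ K : ℝ) * ((k : ℝ) + 1) ^ 2 / f k) * (1 / ((k : ℝ) + 1)) := by
            field_simp
        _ ≤ 1 * 1 * (1 / ((k : ℝ) + 1)) := by
            have h5 : (Module.finrank ℚ K : ℝ) * ((k : ℝ) + 1) ^ 2 / f k ≤ 1 := by
              rw [div_le_one (by linarith)]
              exact h4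
            have h6 : (0 : ℝ) ≤ (Module.finrank ℚ K : ℝ) * ((k : ℝ) + 1) ^ 2 / f k := by
              have : 0 < f k := by linarith
              positivity
            apply mul_le_mul_of_nonneg_right _ (by positivity)
            exact mul_le_mul (by norm_num) h5 h6 (by norm_num)
        _ = 1 / ((k : ℝ) + 1) := by ring)
    refine ⟨E, hE, fun z hz τ hτ => ?_⟩
    obtain ⟨J, hJ⟩ := hE2 z hz
    obtain ⟨k₀, hk₀⟩ := exists_nat_one_div_lt hτ
    obtain ⟨k, hk⟩ : ∃ k : ℕ, k = max J k₀ := ⟨_, rfl⟩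
    have h1 := hJ k (by rw [hk]; exact le_max_left _ _) ()
    rw [Set.mem_ofPred_eq, Set.not_infinite] at h1
    obtain ⟨T, hT⟩ := Set.Finite.bddAbove (h1.image height)
    refine ⟨max (f k) T, lt_of_lt_of_le (hf1 k) (le_max_left _ _), fun x hx0 hx1 hdist => ?_⟩
    have hc0 : 0 ≤ cnd x + cnd x⁻¹ + cnd (x - 1) :=
      add_nonneg (add_nonneg (cond_nonneg x) (cond_nonneg _)) (cond_nonneg _)
    have hm1 : f k ≤ max (f k) T := le_max_left _ _
    have hm2 : T ≤ max (f k) T := le_max_right _ _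
    have hf2 := hf1 k
    by_cases hv : f k * (cnd x + cnd x⁻¹ + cnd (x - 1)) ≤ height x + 0
    · have h2 := hT ⟨x, ⟨⟨hx0, hx1, hv⟩, ?_⟩, rfl⟩
      · nlinarith
      · refine hdist.trans (Real.exp_le_exp.2 ?_)
        have h4 := height_nonneg x
        have h5 : 1 / ((k : ℝ) + 1) ≤ 1 / ((k₀ : ℝ) + 1) := by
          apply one_div_le_one_div_of_le (by positivity)
          have : (k₀ : ℝ) ≤ (k : ℝ) := by rw [hk]; exact_mod_cast le_max_right _ _
          linarith
        have h6 := mul_le_mul_of_nonneg_right (h5.trans hk₀.le) h4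
        linarith
    · push Not at hv
      nlinarith
  · have hτ : 0 < τ := lt_trans (mul_pos hd (expo_pos hκ)) hlt
    obtain ⟨E, hE, hE2⟩ := main1 ℝ s κ τ hκ hτ
    have h3 : volume E = 0 := null_real (by rwa [div_lt_one hτ]) hE
    filter_upwards [measure_eq_zero_iff_ae_notMem.1 h3] with z hz
    exact hE2 z hz
  · have hτ : 0 < τ := by
      have := mul_pos hd (expo_pos hκ)
      linarith
    obtain ⟨E, hE, hE2⟩ := main1 ℂ s κ τ hκ hτ
    have h3 : volume E = 0 := null_complex (by rwa [div_lt_iff₀ hτ]) hE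
    filter_upwards [measure_eq_zero_iff_ae_notMem.1 h3] with z hz
    exact hE2 z hz

end Pool.Agent.Results.MP_f5a5f7_nt.WeakAbcNearTargets
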